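import Mathlib
import Pool.Agent.N432.SqPattern

/-!
Removing unit segments to destroy all grid squares: `f(1) = 1` and `f(n) = ⌈n²/2⌉ + 1` for `n ≥ 2`,
with an explicit optimal set for every `n`.
-/

set_option autoImplicit false

namespace Pool.Agent.Results.MP_5493ad_co.ExactValueAndConstruction

open Finset
open Pool.Agent.N432.SqGrid (VP HP)

/-- Unit segments: `Seg.h i j` joins `(i, j)` and `(i + 1, j)`, `Seg.v i j` joins `(i, j)` and
`(i, j + 1)`. -/
inductive Seg
  | h (i j : ℕ)
  | v (i j : ℕ)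
  deriving DecidableEq

/-- The unit segments joining adjacent points of `{0, …, n}²`. -/
def E (n : ℕ) : Finset Seg :=
  (range n ×ˢ range (n + 1)).image (fun p => Seg.h p.1 p.2) ∪
    (range (n + 1) ×ˢ range n).image (fun p => Seg.v p.1 p.2)

/-- The `4 k` unit segments of the boundary of the square `[a, a + k] × [b, b + k]`. -/
def square (a b k : ℕ) : Finset Seg :=
  ((range k).image (fun i => Seg.h (a + i) b) ∪ (range k).image (fun i => Seg.h (a + i) (b + k))) ∪
    ((range k).image (fun i => Seg.v a (b + i)) ∪ (range k).image (fun i => Seg.v (a + k) (b + i)))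

/-- `R ⊆ E_n` contains a segment of the boundary of every square of the `n × n` board. -/
def Destroys (n : ℕ) (R : Finset Seg) : Prop :=
  R ⊆ E n ∧ ∀ a b k : ℕ, 1 ≤ k → a + k ≤ n → b + k ≤ n → ∃ s ∈ square a b k, s ∈ R

/-- The least size of a set of segments that destroys all squares of the `n × n` board. -/
noncomputable def f (n : ℕ) : ℕ := sInf {m | ∃ R : Finset Seg, Destroys n R ∧ R.card = m}

/-- The rule of the construction. Coordinates are taken relative to the point
`(⌊n/2⌋, ⌊n/2⌋)`. With `(x, y)` the left or lower end of the segment in these coordinates, a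
horizontal segment is removed iff `HP x y`, that is
`x + y` odd and `1 - x ≤ y ≤ x - 3`, or `x + y` even and `x + 2 ≤ y ≤ -x - 2`;
a vertical segment is removed iff `VP x y`, that is
`x + y` even and `-y ≤ x ≤ y + 2`, or `x + y` odd and `y + 1 ≤ x ≤ -1 - y`. -/
def Rule (n : ℕ) : Seg → Prop
  | Seg.h i j => HP ((i : ℤ) - (n / 2 : ℕ)) ((j : ℤ) - (n / 2 : ℕ))
  | Seg.v i j => VP ((i : ℤ) - (n / 2 : ℕ)) ((j : ℤ) - (n / 2 : ℕ))

instance (n : ℕ) : DecidablePred (Rule n) := fun s => by
  cases s <;> unfold Rule <;> infer_instance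

/-- The explicit optimal set of removed segments. -/
def construction (n : ℕ) : Finset Seg := (E n).filter (Rule n)

theorem mem_E_h {n i j : ℕ} : Seg.h i j ∈ E n ↔ i < n ∧ j < n + 1 := by
  unfold E
  simp

theorem mem_E_v {n i j : ℕ} : Seg.v i j ∈ E n ↔ i < n + 1 ∧ j < n := by
  unfold E
  simp

/-- indicator of a horizontal segment -/
def ih (R : Finset Seg) (i j : ℕ) : ℕ := if Seg.h i j ∈ R then 1 else 0

/-- indicator of a vertical segment -/
def iv (R : Finset Seg) (i j : ℕ) : ℕ := if Seg.v i j ∈ R then 1 else 0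

theorem card_eq {n : ℕ} {R : Finset Seg} (hR : R ⊆ E n) :
    R.card = ∑ i ∈ range n, ∑ j ∈ range (n + 1), ih R i j
      + ∑ i ∈ range (n + 1), ∑ j ∈ range n, iv R i j := by
  have h1 : R.card = ∑ s ∈ E n, if s ∈ R then 1 else 0 := by
    rw [← sum_filter, ← card_eq_sum_ones]
    congr 1
    ext s
    simp only [mem_filter]
    exact ⟨fun h => ⟨hR h, h⟩, fun h => h.2⟩
  rw [h1]
  unfold E
  rw [sum_union, sum_image, sum_image, sum_product, sum_product]
  · rfl
  · intro a _ b _ hab
    injection hab with h1 h2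
    exact Prod.ext h1 h2
  · intro a _ b _ hab
    injection hab with h1 h2
    exact Prod.ext h1 h2
  · rw [disjoint_left]
    intro s hs hs'
    simp only [mem_image] at hs hs'
    obtain ⟨p, _, rfl⟩ := hs
    obtain ⟨q, _, hq⟩ := hs'
    cases hq

theorem ih_pos {R : Finset Seg} {i j : ℕ} (h : Seg.h i j ∈ R) : ih R i j = 1 := if_pos h

theorem iv_pos {R : Finset Seg} {i j : ℕ} (h : Seg.v i j ∈ R) : iv R i j = 1 := if_pos h

theorem mem_square {a b k : ℕ} {s : Seg} : s ∈ square a b k ↔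
    ∃ i < k, s = Seg.h (a + i) b ∨ s = Seg.h (a + i) (b + k) ∨ s = Seg.v a (b + i) ∨
      s = Seg.v (a + k) (b + i) := by
  unfold square
  simp only [mem_union, mem_image, mem_range]
  constructor
  · rintro ((⟨i, hi, rfl⟩ | ⟨i, hi, rfl⟩) | (⟨i, hi, rfl⟩ | ⟨i, hi, rfl⟩)) <;>
      exact ⟨i, hi, by simp⟩
  · rintro ⟨i, hi, rfl | rfl | rfl | rfl⟩
    · exact Or.inl (Or.inl ⟨i, hi, rfl⟩)
    · exact Or.inl (Or.inr ⟨i, hi, rfl⟩)
    · exact Or.inr (Or.inl ⟨i, hi, rfl⟩)
    · exact Or.inr (Or.inr ⟨i, hi, rfl⟩)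

theorem lower {n : ℕ} (hn : 2 ≤ n) {R : Finset Seg} (h : Destroys n R) :
    (n ^ 2 + 1) / 2 + 1 ≤ R.card := by
  have key := Pool.Agent.N432.SqGrid.lower_ind hn (ih R) (iv R) ?_ ?_ ?_
  · rw [← card_eq h.1] at key
    omega
  · intro i j hi hj
    obtain ⟨s, hs, hsR⟩ := h.2 i j 1 le_rfl (by omega) (by omega)
    obtain ⟨t, ht, hs⟩ := mem_square.1 hs
    obtain rfl : t = 0 := by omega
    simp only [add_zero] at hs
    rcases hs with rfl | rfl | rfl | rfl
    · have := ih_pos hsR; omega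
    · have := ih_pos hsR; omega
    · have := iv_pos hsR; omega
    · have := iv_pos hsR; omega
  · intro i j hi hj
    obtain ⟨s, hs, hsR⟩ := h.2 i j 2 (by omega) (by omega) (by omega)
    obtain ⟨t, ht, hs⟩ := mem_square.1 hs
    rcases (show t = 0 ∨ t = 1 by omega) with rfl | rfl <;> (try simp only [add_zero] at hs) <;>
      rcases hs with rfl | rfl | rfl | rfl
    · have := ih_pos hsR; omega
    · have := ih_pos hsR; omega
    · have := iv_pos hsR; omega
    · have := iv_pos hsR; omega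
    · have := ih_pos hsR; omega
    · have := ih_pos hsR; omega
    · have := iv_pos hsR; omega
    · have := iv_pos hsR; omega
  · obtain ⟨s, hs, hsR⟩ := h.2 0 0 n (by omega) (by omega) (by omega)
    obtain ⟨t, ht, hs⟩ := mem_square.1 hs
    simp only [zero_add] at hs
    have le_sum : ∀ (g : ℕ → ℕ) (i : ℕ), i < n → g i ≤ ∑ i ∈ range n, g i := fun g i hi =>
      single_le_sum (f := g) (fun _ _ => Nat.zero_le _) (mem_range.2 hi)
    rcases hs with rfl | rfl | rfl | rfl
    · have := ih_pos hsR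
      have := le_sum (fun i => ih R i 0) t ht
      omega
    · have := ih_pos hsR
      have := le_sum (fun i => ih R i n) t ht
      omega
    · have := iv_pos hsR
      have := le_sum (fun i => iv R 0 i) t ht
      omega
    · have := iv_pos hsR
      have := le_sum (fun i => iv R n i) t ht
      omega

theorem destroys_construction (n : ℕ) : Destroys n (construction n) := by
  refine ⟨filter_subset _ _, ?_⟩
  intro a b k hk ha hb
  have mem_h : ∀ i j : ℕ, i < n → j < n + 1 →
      HP ((i : ℤ) - (n / 2 : ℕ)) ((j : ℤ) - (n / 2 : ℕ)) → Seg.h i j ∈ construction n :=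
    fun i j hi hj h => mem_filter.2 ⟨mem_E_h.2 ⟨hi, hj⟩, h⟩
  have mem_v : ∀ i j : ℕ, i < n + 1 → j < n →
      VP ((i : ℤ) - (n / 2 : ℕ)) ((j : ℤ) - (n / 2 : ℕ)) → Seg.v i j ∈ construction n :=
    fun i j hi hj h => mem_filter.2 ⟨mem_E_v.2 ⟨hi, hj⟩, h⟩
  rcases Nat.lt_or_ge k 2 with hk2 | hk2
  · obtain rfl : k = 1 := by omega
    rcases Pool.Agent.N432.SqGrid.hit_one ((a : ℤ) - (n / 2 : ℕ)) ((b : ℤ) - (n / 2 : ℕ)) with
      h | h | h | h
    · exact ⟨Seg.h a b, mem_square.2 ⟨0, by omega, by simp⟩, mem_h _ _ (by omega) (by omega) h⟩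
    · refine ⟨Seg.h a (b + 1), mem_square.2 ⟨0, by omega, by simp⟩,
        mem_h _ _ (by omega) (by omega) ?_⟩
      convert h using 1
      push_cast
      ring
    · exact ⟨Seg.v a b, mem_square.2 ⟨0, by omega, by simp⟩, mem_v _ _ (by omega) (by omega) h⟩
    · refine ⟨Seg.v (a + 1) b, mem_square.2 ⟨0, by omega, by simp⟩,
        mem_v _ _ (by omega) (by omega) ?_⟩
      convert h using 1
      push_cast
      ring
  · have bot : ∀ t : ℕ, t < k → HP ((a : ℤ) - (n / 2 : ℕ) + t) ((b : ℤ) - (n / 2 : ℕ)) →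
        ∃ s ∈ square a b k, s ∈ construction n := by
      intro t ht h
      refine ⟨Seg.h (a + t) b, mem_square.2 ⟨t, ht, by simp⟩, mem_h _ _ (by omega) (by omega) ?_⟩
      convert h using 1
      push_cast
      ring
    have top : ∀ t : ℕ, t < k → HP ((a : ℤ) - (n / 2 : ℕ) + t) ((b : ℤ) - (n / 2 : ℕ) + k) →
        ∃ s ∈ square a b k, s ∈ construction n := by
      intro t ht h
      refine ⟨Seg.h (a + t) (b + k), mem_square.2 ⟨t, ht, by simp⟩,
        mem_h _ _ (by omega) (by omega) ?_⟩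
      convert h using 1 <;> push_cast <;> ring
    have left : ∀ t : ℕ, t < k → VP ((a : ℤ) - (n / 2 : ℕ)) ((b : ℤ) - (n / 2 : ℕ) + t) →
        ∃ s ∈ square a b k, s ∈ construction n := by
      intro t ht h
      refine ⟨Seg.v a (b + t), mem_square.2 ⟨t, ht, by simp⟩, mem_v _ _ (by omega) (by omega) ?_⟩
      convert h using 1
      push_cast
      ring
    have right : ∀ t : ℕ, t < k → VP ((a : ℤ) - (n / 2 : ℕ) + k) ((b : ℤ) - (n / 2 : ℕ) + t) →
        ∃ s ∈ square a b k, s ∈ construction n := by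
      intro t ht h
      refine ⟨Seg.v (a + k) (b + t), mem_square.2 ⟨t, ht, by simp⟩,
        mem_v _ _ (by omega) (by omega) ?_⟩
      convert h using 1 <;> push_cast <;> ring
    have c2 : ((k - 2 : ℕ) : ℤ) = k - 2 := by omega
    have c1 : ((k - 1 : ℕ) : ℤ) = k - 1 := by omega
    rcases Pool.Agent.N432.SqGrid.hit_two ((a : ℤ) - (n / 2 : ℕ)) ((b : ℤ) - (n / 2 : ℕ)) k
      (by omega) with
      h | h | h | h | h | h | h | h | h | h | h | h | h | h | h | h
    · exact bot 0 (by omega) (by simpa using h)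
    · exact bot 1 (by omega) (by simpa using h)
    · exact bot (k - 2) (by omega) (by rw [c2]; convert h using 1; ring)
    · exact bot (k - 1) (by omega) (by rw [c1]; convert h using 1; ring)
    · exact top 0 (by omega) (by simpa using h)
    · exact top 1 (by omega) (by simpa using h)
    · exact top (k - 2) (by omega) (by rw [c2]; convert h using 1; ring)
    · exact top (k - 1) (by omega) (by rw [c1]; convert h using 1; ring)
    · exact left 0 (by omega) (by simpa using h)
    · exact left 1 (by omega) (by simpa using h)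
    · exact left (k - 2) (by omega) (by rw [c2]; convert h using 1; ring)
    · exact left (k - 1) (by omega) (by rw [c1]; convert h using 1; ring)
    · exact right 0 (by omega) (by simpa using h)
    · exact right 1 (by omega) (by simpa using h)
    · exact right (k - 2) (by omega) (by rw [c2]; convert h using 1; ring)
    · exact right (k - 1) (by omega) (by rw [c1]; convert h using 1; ring)

/-- indicator of a proposition -/
def ind (p : Prop) [Decidable p] : ℕ := if p then 1 else 0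

theorem ind_le {p : Prop} [Decidable p] : ind p ≤ 1 := by
  unfold ind
  split_ifs <;> omega

theorem ind_pos {p : Prop} [Decidable p] (h : ind p ≠ 0) : p := by
  unfold ind at h
  by_contra hcon
  exact h (if_neg hcon)

theorem ind_zero {p : Prop} [Decidable p] (h : ¬ p) : ind p = 0 := if_neg h

theorem excl1 {x y : ℤ} : ¬ (HP x y ∧ HP x (y + 1)) := by
  unfold HP; omega

theorem excl2 {x y : ℤ} : ¬ (HP x y ∧ VP x y) := by
  unfold HP VP; omega

theorem excl3 {x y : ℤ} : ¬ (HP x y ∧ VP (x + 1) y) := by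
  unfold HP VP; omega

theorem excl4 {x y : ℤ} : ¬ (HP x (y + 1) ∧ VP x y) := by
  unfold HP VP; omega

theorem excl5 {x y : ℤ} : ¬ (HP x (y + 1) ∧ VP (x + 1) y) := by
  unfold HP VP; omega

theorem excl6 {x y : ℤ} (h : ¬ (x = 0 ∧ y = -1)) : ¬ (VP x y ∧ VP (x + 1) y) := by
  unfold VP; omega

theorem cell_le (x y : ℤ) :
    ind (HP x y) + ind (HP x (y + 1)) + ind (VP x y) + ind (VP (x + 1) y)
      ≤ 1 + ind (x = 0 ∧ y = -1) := by
  have a1 := @ind_le (HP x y) _
  have a2 := @ind_le (HP x (y + 1)) _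
  have a3 := @ind_le (VP x y) _
  have a4 := @ind_le (VP (x + 1) y) _
  have p1 := @ind_pos (HP x y) _
  have p2 := @ind_pos (HP x (y + 1)) _
  have p3 := @ind_pos (VP x y) _
  have p4 := @ind_pos (VP (x + 1) y) _
  have e1 := @excl1 x y
  have e2 := @excl2 x y
  have e3 := @excl3 x y
  have e4 := @excl4 x y
  have e5 := @excl5 x y
  by_cases h : x = 0 ∧ y = -1
  · have : ind (x = 0 ∧ y = -1) = 1 := if_pos h
    rw [this]
    by_contra hcon
    have : (ind (HP x y) ≠ 0 ∧ ind (HP x (y + 1)) ≠ 0) ∨ (ind (HP x y) ≠ 0 ∧ ind (VP x y) ≠ 0) ∨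
        (ind (HP x (y + 1)) ≠ 0 ∧ ind (VP x y) ≠ 0) := by omega
    rcases this with ⟨h1, h2⟩ | ⟨h1, h2⟩ | ⟨h1, h2⟩
    · exact e1 ⟨p1 h1, p2 h2⟩
    · exact e2 ⟨p1 h1, p3 h2⟩
    · exact e4 ⟨p2 h1, p3 h2⟩
  · have e6 := @excl6 x y h
    by_contra hcon
    have : (ind (HP x y) ≠ 0 ∧ ind (HP x (y + 1)) ≠ 0) ∨ (ind (HP x y) ≠ 0 ∧ ind (VP x y) ≠ 0) ∨
        (ind (HP x y) ≠ 0 ∧ ind (VP (x + 1) y) ≠ 0) ∨
        (ind (HP x (y + 1)) ≠ 0 ∧ ind (VP x y) ≠ 0) ∨
        (ind (HP x (y + 1)) ≠ 0 ∧ ind (VP (x + 1) y) ≠ 0) ∨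
        (ind (VP x y) ≠ 0 ∧ ind (VP (x + 1) y) ≠ 0) := by omega
    rcases this with ⟨h1, h2⟩ | ⟨h1, h2⟩ | ⟨h1, h2⟩ | ⟨h1, h2⟩ | ⟨h1, h2⟩ | ⟨h1, h2⟩
    · exact e1 ⟨p1 h1, p2 h2⟩
    · exact e2 ⟨p1 h1, p3 h2⟩
    · exact e3 ⟨p1 h1, p4 h2⟩
    · exact e4 ⟨p2 h1, p3 h2⟩
    · exact e5 ⟨p2 h1, p4 h2⟩
    · exact e6 ⟨p3 h1, p4 h2⟩

theorem ih_eq {n i j : ℕ} (hi : i < n) (hj : j < n + 1) : ih (construction n) i j
    = ind (HP ((i : ℤ) - (n / 2 : ℕ)) ((j : ℤ) - (n / 2 : ℕ))) := by
  unfold ih ind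
  refine if_congr ?_ rfl rfl
  unfold construction
  rw [mem_filter, mem_E_h]
  exact ⟨fun h => h.2, fun h => ⟨⟨hi, hj⟩, h⟩⟩

theorem iv_eq {n i j : ℕ} (hi : i < n + 1) (hj : j < n) : iv (construction n) i j
    = ind (VP ((i : ℤ) - (n / 2 : ℕ)) ((j : ℤ) - (n / 2 : ℕ))) := by
  unfold iv ind
  refine if_congr ?_ rfl rfl
  unfold construction
  rw [mem_filter, mem_E_v]
  exact ⟨fun h => h.2, fun h => ⟨⟨hi, hj⟩, h⟩⟩

theorem cells_le (n : ℕ) :
    ∑ i ∈ range n, ∑ j ∈ range n, (ih (construction n) i j + ih (construction n) i (j + 1)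
      + iv (construction n) i j + iv (construction n) (i + 1) j)
      ≤ n ^ 2 + (if n = 1 then 0 else 1) := by
  have h1 : ∀ i ∈ range n, ∀ j ∈ range n, ih (construction n) i j + ih (construction n) i (j + 1)
      + iv (construction n) i j + iv (construction n) (i + 1) j
      ≤ 1 + (if i = n / 2 then (if j + 1 = n / 2 then 1 else 0) else 0) := by
    intro i hi j hj
    have hi' := mem_range.1 hi
    have hj' := mem_range.1 hj
    rw [ih_eq hi' (by omega), ih_eq hi' (by omega), iv_eq (by omega) hj', iv_eq (by omega) hj']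
    have := cell_le ((i : ℤ) - (n / 2 : ℕ)) ((j : ℤ) - (n / 2 : ℕ))
    have e1 : ((j + 1 : ℕ) : ℤ) - (n / 2 : ℕ) = (j : ℤ) - (n / 2 : ℕ) + 1 := by push_cast; ring
    have e2 : ((i + 1 : ℕ) : ℤ) - (n / 2 : ℕ) = (i : ℤ) - (n / 2 : ℕ) + 1 := by push_cast; ring
    rw [e1, e2]
    refine this.trans ?_
    unfold ind
    split_ifs <;> omega
  refine (sum_le_sum fun i hi => sum_le_sum fun j hj => h1 i hi j hj).trans ?_
  rcases Nat.lt_or_ge 1 n with hn | hn
  · rw [if_neg (by omega)]
    simp only [sum_add_distrib, sum_const, card_range, smul_eq_mul, mul_one, ← sq]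
    refine Nat.add_le_add_left ?_ _
    have h2 : ∀ i ∈ range n, (∑ j ∈ range n, if i = n / 2 then (if j + 1 = n / 2 then 1 else 0)
        else 0) ≤ (if i = n / 2 then 1 else 0) := by
      intro i hi
      by_cases hin : i = n / 2
      · simp only [if_pos hin]
        have h3 : ∀ j ∈ range n, (if j + 1 = n / 2 then 1 else 0)
            = (if j = n / 2 - 1 then 1 else 0) := by
          intro j hj
          split_ifs <;> omega
        rw [sum_congr rfl h3, sum_ite_eq']
        split_ifs <;> omega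
      · simp only [if_neg hin]
        simp
    refine (sum_le_sum h2).trans ?_
    rw [sum_ite_eq']
    split_ifs <;> omega
  · rcases (show n = 0 ∨ n = 1 by omega) with rfl | rfl
    · simp
    · simp

theorem bdry_le {n : ℕ} (hn : 1 ≤ n) :
    ∑ i ∈ range n, ih (construction n) i 0 + ∑ i ∈ range n, ih (construction n) i n
      + ∑ j ∈ range n, iv (construction n) 0 j + ∑ j ∈ range n, iv (construction n) n j
      ≤ if n = 1 then 1 else 1 + n % 2 := by
  have z1 : ∀ i ∈ range n, ih (construction n) i 0 = 0 := by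
    intro i hi
    have := mem_range.1 hi
    rw [ih_eq this (by omega)]
    refine ind_zero ?_
    unfold HP
    omega
  have z2 : ∀ i ∈ range n, ih (construction n) i n = 0 := by
    intro i hi
    have := mem_range.1 hi
    rw [ih_eq this (by omega)]
    refine ind_zero ?_
    unfold HP
    omega
  have z3 : ∀ j ∈ range n, iv (construction n) 0 j ≤ if j = n - 1 then n % 2 else 0 := by
    intro j hj
    have hj' := mem_range.1 hj
    rw [iv_eq (by omega) hj']
    by_cases hV : VP (((0 : ℕ) : ℤ) - (n / 2 : ℕ)) ((j : ℤ) - (n / 2 : ℕ))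
    · have : ind (VP (((0 : ℕ) : ℤ) - (n / 2 : ℕ)) ((j : ℤ) - (n / 2 : ℕ))) = 1 := if_pos hV
      rw [this]
      unfold VP at hV
      split_ifs <;> omega
    · rw [ind_zero hV]
      exact Nat.zero_le _
  have z4 : ∀ j ∈ range n, iv (construction n) n j ≤
      if j = n - 2 then (if n = 1 then 0 else 1) else 0 := by
    intro j hj
    have hj' := mem_range.1 hj
    rw [iv_eq (by omega) hj']
    by_cases hV : VP ((n : ℤ) - (n / 2 : ℕ)) ((j : ℤ) - (n / 2 : ℕ))
    · have : ind (VP ((n : ℤ) - (n / 2 : ℕ)) ((j : ℤ) - (n / 2 : ℕ))) = 1 := if_pos hV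
      rw [this]
      unfold VP at hV
      split_ifs <;> omega
    · rw [ind_zero hV]
      exact Nat.zero_le _
  rw [sum_congr rfl z1, sum_congr rfl z2]
  have s3 := sum_le_sum z3
  have s4 := sum_le_sum z4
  rw [sum_ite_eq'] at s3 s4
  simp only [sum_const_zero, zero_add]
  split_ifs at * <;> omega

theorem upper {n : ℕ} (hn : 1 ≤ n) :
    (construction n).card ≤ if n = 1 then 1 else (n ^ 2 + 1) / 2 + 1 := by
  have h1 := card_eq (R := construction n) (filter_subset _ _)
  have h2 := Pool.Agent.N432.SqGrid.cells_eq n (ih (construction n)) (iv (construction n))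
  have h3 := cells_le n
  have h4 := bdry_le hn
  rw [← h1] at h2
  by_cases h : n = 1
  · subst h
    simp only [if_true] at h3 h4 ⊢
    omega
  · rw [if_neg h] at h3 h4 ⊢
    rcases Nat.even_or_odd n with he | ho
    · obtain ⟨t, rfl⟩ := he
      have : (t + t) ^ 2 = 2 * (2 * t ^ 2) := by ring
      omega
    · obtain ⟨t, rfl⟩ := ho
      have : (2 * t + 1) ^ 2 = 2 * (2 * t ^ 2 + 2 * t) + 1 := by ring
      omega

theorem lower' {n : ℕ} (hn : 1 ≤ n) {R : Finset Seg} (h : Destroys n R) :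
    (if n = 1 then 1 else (n ^ 2 + 1) / 2 + 1) ≤ R.card := by
  by_cases h1 : n = 1
  · subst h1
    simp only [if_true]
    obtain ⟨s, _, hsR⟩ := h.2 0 0 1 le_rfl (by omega) (by omega)
    exact card_pos.2 ⟨s, hsR⟩
  · rw [if_neg h1]
    exact lower (by omega) h

/-- `f(1) = 1` and `f(n) = ⌈n²/2⌉ + 1` for all `n ≥ 2`; for every `n ≥ 1` the explicit set
`construction n` destroys all squares and has exactly `f(n)` segments. -/
theorem result (n : ℕ) (hn : 1 ≤ n) :
    f n = (if n = 1 then 1 else (n ^ 2 + 1) / 2 + 1) ∧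
      Destroys n (construction n) ∧ (construction n).card = f n := by
  have hc : (construction n).card = if n = 1 then 1 else (n ^ 2 + 1) / 2 + 1 :=
    le_antisymm (upper hn) (lower' hn (destroys_construction n))
  have hf : f n = if n = 1 then 1 else (n ^ 2 + 1) / 2 + 1 := by
    refine le_antisymm ?_ ?_
    · exact Nat.sInf_le ⟨construction n, destroys_construction n, hc⟩
    · refine le_csInf ⟨_, construction n, destroys_construction n, rfl⟩ ?_
      rintro m ⟨R, hR, rfl⟩
      exact lower' hn hR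
  exact ⟨hf, destroys_construction n, hc.trans hf.symm⟩

end Pool.Agent.Results.MP_5493ad_co.ExactValueAndConstruction
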